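import Pool.Agent.Run7.h341.CTF.Defs

/-!
# `CT_P(ℤ)` is finitely presented: basic facts on cones, frames, splitting and merging
-/

set_option autoImplicit false

noncomputable section

open scoped Classical

namespace Pool.Agent.Run7.h341.CTF

open Equiv

variable {S : Finset ℕ}

/-! ### smooth numbers -/

theorem Sm.pos {m : ℤ} (h : Sm S m) : 0 < m := h.1

theorem Sm.one : Sm S 1 :=
  ⟨one_pos, fun p hp h => by
    exfalso
    have h1 := Int.le_of_dvd one_pos h
    have h2 := hp.two_le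
    omega⟩

theorem Sm.mul {a b : ℤ} (ha : Sm S a) (hb : Sm S b) : Sm S (a * b) :=
  ⟨mul_pos ha.1 hb.1, fun p hp h =>
    ((Nat.prime_iff_prime_int.1 hp).dvd_or_dvd h).elim (ha.2 p hp) (hb.2 p hp)⟩

theorem Sm.prime (hS : PS S) {p : ℕ} (hp : p ∈ S) : Sm S (p : ℤ) :=
  ⟨by exact_mod_cast (hS.prime p hp).pos, fun q hq h => by
    have h1 : q ∣ p := by exact_mod_cast h
    rw [(Nat.prime_dvd_prime_iff_eq hq (hS.prime p hp)).1 h1]; exact hp⟩

/-- induction over smooth numbers -/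
theorem Sm.ind {P : ℤ → Prop} (h1 : P 1) (h : ∀ (p : ℕ) (m : ℤ), p ∈ S → Sm S m → P m → P (p * m))
    {m : ℤ} (hm : Sm S m) : P m := by
  have key : ∀ n : ℕ, ∀ m : ℤ, m = n → Sm S m → P m := by
    intro n
    induction n using Nat.strong_induction_on with
    | _ n ih =>
      intro m hmn hm
      by_cases h0 : n = 1
      · subst h0
        rw [hmn]; exact_mod_cast h1
      · obtain ⟨p, hp, hpn⟩ := Nat.exists_prime_and_dvd h0
        obtain ⟨k, rfl⟩ := hpn
        have hpS : p ∈ S := hm.2 p hp (by rw [hmn]; exact ⟨(k : ℤ), by push_cast; ring⟩)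
        have hk0 : 0 < k := by
          rcases Nat.eq_zero_or_pos k with h | h
          · subst h
            have := hm.1
            rw [hmn] at this
            simp at this
          · exact h
        have hk : Sm S (k : ℤ) := ⟨by exact_mod_cast hk0, fun q hq hqk => hm.2 q hq (by
          rw [hmn]; push_cast; exact Dvd.dvd.mul_left hqk _)⟩
        have hlt : k < p * k := by
          have := hp.two_le
          nlinarith
        have := h p k hpS hk (ih k hlt k rfl hk)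
        rw [hmn]
        push_cast
        exact this
  obtain ⟨n, hn⟩ := Int.eq_ofNat_of_zero_le hm.1.le
  exact key n m hn hm

/-! ### cones -/

theorem cn_apply (m r x : ℤ) : cn m r x = r + m * x := rfl

theorem cn_one : cn 1 0 = id := by
  funext x; simp [cn]

theorem cn_comp (m r m' r' : ℤ) : cn m r ∘ cn m' r' = cn (m * m') (r + m * r') := by
  funext x; simp only [cn, Function.comp]; ring

theorem cn_inj {m r : ℤ} (hm : m ≠ 0) : Function.Injective (cn m r) := by
  intro x y h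
  simp only [cn] at h
  have : m * x = m * y := by linarith
  exact mul_left_cancel₀ hm this

/-- a cone determines its modulus and residue -/
theorem cn_eq_iff {m r m' r' : ℤ} : cn m r = cn m' r' ↔ m = m' ∧ r = r' := by
  constructor
  · intro h
    have h0 := congrFun h 0
    have h1 := congrFun h 1
    simp only [cn, mul_zero, add_zero, mul_one] at h0 h1
    constructor <;> linarith
  · rintro ⟨rfl, rfl⟩; rfl

/-- exchange of two digits: `(q, j)` followed by `(p, i')` is `(p, i)` followed by `(q, j')` -/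
theorem cn_swap {p q : ℕ} (hp : 0 < p) {j i' : ℕ} (hj : j < q) (hi : i' < p) :
    ∃ i j' : ℕ, i < p ∧ j' < q ∧ (cn (q : ℤ) j ∘ cn (p : ℤ) i' : ℤ → ℤ) = cn (p : ℤ) i ∘ cn (q : ℤ) j' := by
  refine ⟨(j + q * i') % p, (j + q * i') / p, Nat.mod_lt _ hp, ?_, ?_⟩
  · rw [Nat.div_lt_iff_lt_mul hp]
    calc j + q * i' < q + q * i' := by omega
      _ = q * (i' + 1) := by ring
      _ ≤ q * p := Nat.mul_le_mul_left _ hi
  · rw [cn_comp, cn_comp, cn_eq_iff]
    refine ⟨mul_comm _ _, ?_⟩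
    have := Nat.mod_add_div (j + q * i') p
    exact_mod_cast this.symm

/-! ### piecewise canonical injections -/

theorem PC.inj {f : ℤ → ℤ} (h : PC S f) : Function.Injective f := h.1

theorem pc_cn {m r : ℤ} (hm : Sm S m) (h0 : 0 ≤ r) (h1 : r < m) : PC S (cn m r) := by
  refine ⟨cn_inj (by linarith), 1, Sm.one, fun i h2 h3 => ⟨m, r, hm, h0, h1, ?_⟩⟩
  have : i = 0 := by omega
  subst this
  rw [cn_comp, cn_eq_iff]
  constructor <;> ring

theorem pc_id : PC S id := by
  rw [← cn_one]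
  exact pc_cn Sm.one le_rfl one_pos

/-- a cone composed with a cone is a cone -/
theorem IsCone.comp {f : ℤ → ℤ} (hf : IsCone S f) {k u : ℤ} (hk : Sm S k) (h0 : 0 ≤ u) (h1 : u < k) :
    IsCone S (f ∘ cn k u) := by
  obtain ⟨m, r, hm, hr0, hr1, rfl⟩ := hf
  refine ⟨m * k, r + m * u, hm.mul hk, ?_, ?_, cn_comp _ _ _ _⟩
  · have := mul_nonneg hm.1.le h0
    linarith
  · have := hm.1
    nlinarith

theorem PC.comp {f g : ℤ → ℤ} (hf : PC S f) (hg : PC S g) : PC S (f ∘ g) := by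
  obtain ⟨hfi, Mf, hMf, hf⟩ := hf
  obtain ⟨hgi, Mg, hMg, hg⟩ := hg
  refine ⟨hfi.comp hgi, Mg * Mf, hMg.mul hMf, fun i hi0 hi1 => ?_⟩
  have hMgp := hMg.1
  have hMfp := hMf.1
  obtain ⟨a, b, ha, hb0, hb1, hab⟩ := hg (i % Mg) (Int.emod_nonneg _ hMgp.ne') (Int.emod_lt_of_pos _ hMgp)
  have hap := ha.1
  have hq0 : 0 ≤ i / Mg := Int.ediv_nonneg hi0 hMgp.le
  have hq1 : i / Mg < Mf := by
    apply Int.ediv_lt_of_lt_mul hMgp
    rw [mul_comm]; exact hi1
  have e1 : cn (Mg * Mf) i = cn Mg (i % Mg) ∘ cn Mf (i / Mg) := by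
    rw [cn_comp, cn_eq_iff]
    exact ⟨rfl, (Int.emod_add_mul_ediv i Mg).symm⟩
  have e2 : (f ∘ g) ∘ cn (Mg * Mf) i = f ∘ cn (a * Mf) (b + a * (i / Mg)) := by
    rw [e1, ← cn_comp, ← hab]
    rfl
  rw [e2]
  set t := b + a * (i / Mg) with ht
  have ht0 : 0 ≤ t := by have := mul_nonneg hap.le hq0; linarith
  have ht1 : t < a * Mf := by nlinarith
  have e3 : cn (a * Mf) t = cn Mf (t % Mf) ∘ cn a (t / Mf) := by
    rw [cn_comp, cn_eq_iff]
    exact ⟨mul_comm _ _, (Int.emod_add_mul_ediv t Mf).symm⟩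
  rw [e3, ← Function.comp_assoc]
  refine (hf _ (Int.emod_nonneg _ hMfp.ne') (Int.emod_lt_of_pos _ hMfp)).comp ha
    (Int.ediv_nonneg ht0 hMfp.le) (Int.ediv_lt_of_lt_mul hMfp ht1)

theorem PC.child (hS : PS S) {f : ℤ → ℤ} (hf : PC S f) {p j : ℕ} (hp : p ∈ S) (hj : j < p) :
    PC S (f ∘ cn (p : ℤ) j) :=
  hf.comp (pc_cn (Sm.prime hS hp) (by positivity) (by exact_mod_cast hj))

/-- merging two piecewise canonical injections with disjoint images -/
theorem exists_glue (hS : PS S) {a b : ℤ → ℤ} (ha : PC S a) (hb : PC S b)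
    (hab : ∀ x y, a x ≠ b y) :
    ∃ m : ℤ → ℤ, PC S m ∧ m ∘ cn (2 : ℕ) (0 : ℕ) = a ∧ m ∘ cn (2 : ℕ) (1 : ℕ) = b := by
  have h2 : ∀ x : ℤ, x % 2 = 0 ∨ x % 2 = 1 := fun x => by omega
  have ea : (fun x : ℤ => if x % 2 = 0 then a (x / 2) else b (x / 2)) ∘ cn (2 : ℕ) (0 : ℕ) = a := by
    funext x
    simp only [Function.comp, cn, Nat.cast_ofNat, Nat.cast_zero]
    rw [if_pos (by omega), show (0 + 2 * x) / 2 = x by omega]
  have eb : (fun x : ℤ => if x % 2 = 0 then a (x / 2) else b (x / 2)) ∘ cn (2 : ℕ) (1 : ℕ) = b := by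
    funext x
    simp only [Function.comp, cn, Nat.cast_ofNat, Nat.cast_one]
    rw [if_neg (by omega), show (1 + 2 * x) / 2 = x by omega]
  refine ⟨fun x => if x % 2 = 0 then a (x / 2) else b (x / 2), ⟨?_, ?_⟩, ea, eb⟩
  · intro x y hxy
    dsimp only at hxy
    rcases h2 x with hx | hx <;> rcases h2 y with hy | hy
    · rw [if_pos hx, if_pos hy] at hxy
      have := ha.1 hxy
      omega
    · rw [if_pos hx, if_neg (by omega)] at hxy
      exact absurd hxy (hab _ _)
    · rw [if_neg (by omega), if_pos hy] at hxy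
      exact absurd hxy.symm (hab _ _)
    · rw [if_neg (by omega), if_neg (by omega)] at hxy
      have := hb.1 hxy
      omega
  · obtain ⟨-, Ma, hMa, ha⟩ := ha
    obtain ⟨-, Mb, hMb, hb⟩ := hb
    have hMap := hMa.1
    have hMbp := hMb.1
    have h2S : Sm S 2 := by exact_mod_cast Sm.prime hS hS.two
    refine ⟨2 * (Ma * Mb), h2S.mul (hMa.mul hMb), fun i hi0 hi1 => ?_⟩
    have hq0 : 0 ≤ i / 2 := by omega
    have hq1 : i / 2 < Ma * Mb := by omega
    rcases h2 i with h | h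
    · have e1 : cn (2 * (Ma * Mb)) i = cn (2 : ℕ) (0 : ℕ) ∘ (cn Ma ((i / 2) % Ma) ∘ cn Mb ((i / 2) / Ma)) := by
        rw [cn_comp, cn_comp, cn_eq_iff]
        refine ⟨by push_cast; ring, ?_⟩
        have := Int.emod_add_mul_ediv (i / 2) Ma
        push_cast
        omega
      rw [e1, ← Function.comp_assoc, ea, ← Function.comp_assoc]
      refine (ha _ (Int.emod_nonneg _ hMap.ne') (Int.emod_lt_of_pos _ hMap)).comp hMb
        (Int.ediv_nonneg hq0 hMap.le) (Int.ediv_lt_of_lt_mul hMap (by rw [mul_comm]; exact hq1))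
    · have e1 : cn (2 * (Ma * Mb)) i = cn (2 : ℕ) (1 : ℕ) ∘ (cn Mb ((i / 2) % Mb) ∘ cn Ma ((i / 2) / Mb)) := by
        rw [cn_comp, cn_comp, cn_eq_iff]
        refine ⟨by push_cast; ring, ?_⟩
        have := Int.emod_add_mul_ediv (i / 2) Mb
        push_cast
        omega
      rw [e1, ← Function.comp_assoc, eb, ← Function.comp_assoc]
      refine (hb _ (Int.emod_nonneg _ hMbp.ne') (Int.emod_lt_of_pos _ hMbp)).comp hMa
        (Int.ediv_nonneg hq0 hMbp.le) (Int.ediv_lt_of_lt_mul hMbp hq1)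

/-- `f` is determined by its children -/
theorem eq_of_children {f g : ℤ → ℤ} {p : ℕ} (hp : 0 < p)
    (h : ∀ j < p, f ∘ cn (p : ℤ) j = g ∘ cn (p : ℤ) j) : f = g := by
  funext x
  have hp' : (0 : ℤ) < p := by exact_mod_cast hp
  obtain ⟨j, hj⟩ := Int.eq_ofNat_of_zero_le (Int.emod_nonneg x hp'.ne')
  have hjp : j < p := by
    have := Int.emod_lt_of_pos x hp'
    rw [hj] at this
    exact_mod_cast this
  have e : x = cn (p : ℤ) j (x / p) := by
    have := Int.emod_add_mul_ediv x p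
    rw [hj] at this
    simp only [cn]
    exact this.symm
  have := congrFun (h j hjp) (x / p)
  simp only [Function.comp] at this
  rw [← e] at this
  exact this

/-- each value of `f` is a value of a child of `f` -/
theorem exists_child {f : ℤ → ℤ} {p : ℕ} (hp : 0 < p) (x : ℤ) :
    ∃ j < p, ∃ y : ℤ, f x = (f ∘ cn (p : ℤ) (j : ℕ)) y := by
  have hp' : (0 : ℤ) < p := by exact_mod_cast hp
  obtain ⟨j, hj⟩ := Int.eq_ofNat_of_zero_le (Int.emod_nonneg x hp'.ne')
  have hjp : j < p := by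
    have := Int.emod_lt_of_pos x hp'
    rw [hj] at this
    exact_mod_cast this
  have e : x = cn (p : ℤ) j (x / p) := by
    have := Int.emod_add_mul_ediv x p
    rw [hj] at this
    simp only [cn]
    exact this.symm
  refine ⟨j, hjp, x / p, ?_⟩
  simp only [Function.comp]
  rw [← e]

/-! ### children -/

theorem mem_ch {f a : ℤ → ℤ} {p : ℕ} : a ∈ ch f p ↔ ∃ j : ℕ, j < p ∧ f ∘ cn (p : ℤ) j = a := by
  simp [ch]

theorem child_inj {f : ℤ → ℤ} (hf : Function.Injective f) {p i j : ℕ}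
    (h : f ∘ cn (p : ℤ) i = f ∘ cn (p : ℤ) j) : i = j := by
  have := congrFun h 0
  simp only [Function.comp, cn, mul_zero, add_zero] at this
  exact_mod_cast hf this

theorem card_ch {f : ℤ → ℤ} (hf : Function.Injective f) (p : ℕ) : (ch f p).card = p := by
  unfold ch
  rw [Finset.card_image_of_injective _ (fun i j h => child_inj hf h), Finset.card_range]

theorem mem_chl {f a : ℤ → ℤ} {p : ℕ} : a ∈ chl f p ↔ a ∈ ch f p := by
  simp [chl, ch]

theorem nodup_chl {f : ℤ → ℤ} (hf : Function.Injective f) (p : ℕ) : (chl f p).Nodup := by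
  unfold chl
  exact List.Nodup.map (fun i j h => child_inj hf h) List.nodup_range

/-- a value of a child of `f` is a value of `f` -/
theorem val_of_mem_ch {f a : ℤ → ℤ} {p : ℕ} (h : a ∈ ch f p) (y : ℤ) : ∃ x, f x = a y := by
  obtain ⟨j, -, rfl⟩ := mem_ch.1 h
  exact ⟨_, rfl⟩

/-! ### splitting -/

theorem mem_split {v : V} {f a : ℤ → ℤ} {p : ℕ} :
    a ∈ split v f p ↔ (a ∈ v ∧ a ≠ f) ∨ a ∈ ch f p := by
  simp only [split, Finset.mem_union, Finset.mem_erase]
  tauto

/-- the one-element frame -/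
theorem frame_id : Frame S ({id} : V) :=
  ⟨fun f hf => by rw [Finset.mem_singleton.1 hf]; exact pc_id,
   fun x => ⟨id, Finset.mem_singleton_self _, x, rfl⟩,
   fun f hf g hg _ _ _ => by rw [Finset.mem_singleton.1 hf, Finset.mem_singleton.1 hg]⟩

/-- an injective function in a frame is not one of its children, and more generally no child of `f`
is an element of the frame -/
theorem disj_ch (hS : PS S) {v : V} (hv : Frame S v) {f : ℤ → ℤ} (hf : f ∈ v) {p : ℕ} (hp : p ∈ S) :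
    Disjoint v (ch f p) := by
  rw [Finset.disjoint_left]
  intro a ha hac
  obtain ⟨j, hj, rfl⟩ := mem_ch.1 hac
  have e : f ∘ cn (p : ℤ) j = f := (hv.dis f hf _ ha (cn (p : ℤ) j 0) 0 rfl).symm
  have i := (hv.pc f hf).inj
  have h0 : cn (p : ℤ) j 0 = 0 := i (congrFun e 0)
  have h1 : cn (p : ℤ) j 1 = 1 := i (congrFun e 1)
  simp only [cn] at h0 h1
  have := (hS.prime p hp).two_le
  omega

theorem frame_split (hS : PS S) {v : V} (hv : Frame S v) {f : ℤ → ℤ} (hf : f ∈ v) {p : ℕ}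
    (hp : p ∈ S) : Frame S (split v f p) := by
  have hp0 := (hS.prime p hp).pos
  refine ⟨fun a ha => ?_, fun x => ?_, fun a ha b hb y z hyz => ?_⟩
  · rcases mem_split.1 ha with ⟨h, -⟩ | h
    · exact hv.pc a h
    · obtain ⟨j, hj, rfl⟩ := mem_ch.1 h
      exact (hv.pc f hf).child hS hp hj
  · obtain ⟨g, hg, y, rfl⟩ := hv.cov x
    by_cases hgf : g = f
    · subst hgf
      obtain ⟨j, hj, z, hz⟩ := exists_child (f := g) hp0 y
      exact ⟨g ∘ cn (p : ℤ) j, mem_split.2 (Or.inr (mem_ch.2 ⟨j, hj, rfl⟩)), z, hz.symm⟩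
    · exact ⟨g, mem_split.2 (Or.inl ⟨hg, hgf⟩), y, rfl⟩
  · rcases mem_split.1 ha with ⟨h, haf⟩ | h <;> rcases mem_split.1 hb with ⟨h', hbf⟩ | h'
    · exact hv.dis a h b h' y z hyz
    · obtain ⟨x, hx⟩ := val_of_mem_ch h' z
      exact absurd (hv.dis a h f hf y x (hyz.trans hx.symm)) haf
    · obtain ⟨x, hx⟩ := val_of_mem_ch h y
      exact absurd (hv.dis b h' f hf z x (hyz.symm.trans hx.symm)) hbf
    · obtain ⟨i, hi, rfl⟩ := mem_ch.1 h
      obtain ⟨j, hj, rfl⟩ := mem_ch.1 h'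
      have e : cn (p : ℤ) i y = cn (p : ℤ) j z := (hv.pc f hf).inj hyz
      have : i = j := by
        simp only [cn] at e
        have h3 : (i : ℤ) % p = (j : ℤ) % p := by
          have h1 : ((i : ℤ) + p * y) % p = i % p := Int.add_mul_emod_self_left _ _ _
          have h2 : ((j : ℤ) + p * z) % p = j % p := Int.add_mul_emod_self_left _ _ _
          rw [← h1, ← h2, e]
        rw [Int.emod_eq_of_lt (by positivity) (by exact_mod_cast hi),
          Int.emod_eq_of_lt (by positivity) (by exact_mod_cast hj)] at h3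
        exact_mod_cast h3
      rw [this]

theorem card_split (hS : PS S) {v : V} (hv : Frame S v) {f : ℤ → ℤ} (hf : f ∈ v) {p : ℕ}
    (hp : p ∈ S) : (split v f p).card + 1 = v.card + p := by
  have hd : Disjoint (v.erase f) (ch f p) :=
    (disj_ch hS hv hf hp).mono_left (Finset.erase_subset _ _)
  rw [split, Finset.card_union_of_disjoint hd, card_ch (hv.pc f hf).inj]
  have := Finset.card_erase_add_one hf
  omega

theorem ch_sub_split {v : V} {f : ℤ → ℤ} {p : ℕ} : ch f p ⊆ split v f p :=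
  Finset.subset_union_right

theorem mem_split_of_ne {v : V} {f g : ℤ → ℤ} {p : ℕ} (hg : g ∈ v) (h : g ≠ f) : g ∈ split v f p :=
  mem_split.2 (Or.inl ⟨hg, h⟩)

theorem split_comm (hS : PS S) {v : V} (hv : Frame S v) {f g : ℤ → ℤ} (hf : f ∈ v) (hg : g ∈ v)
    (hfg : f ≠ g) {p q : ℕ} (hp : p ∈ S) (hq : q ∈ S) :
    split (split v f p) g q = split (split v g q) f p := by
  ext a
  simp only [mem_split]
  have h1 : a ∈ ch f p → a ≠ g := fun h e =>
    Finset.disjoint_left.1 (disj_ch hS hv hf hp) hg (e ▸ h)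
  have h2 : a ∈ ch g q → a ≠ f := fun h e =>
    Finset.disjoint_left.1 (disj_ch hS hv hg hq) hf (e ▸ h)
  tauto

/-- different elements of a frame have disjoint sets of children -/
theorem disj_ch_ch {v : V} (hv : Frame S v) {f g : ℤ → ℤ} (hf : f ∈ v) (hg : g ∈ v)
    (hfg : f ≠ g) (p q : ℕ) : Disjoint (ch f p) (ch g q) := by
  rw [Finset.disjoint_left]
  intro a ha hb
  obtain ⟨x, hx⟩ := val_of_mem_ch ha 0
  obtain ⟨y, hy⟩ := val_of_mem_ch hb 0
  exact hfg (hv.dis f hf g hg x y (hx.trans hy.symm))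

/-! ### merging -/

theorem mem_mrg {w : V} {f a : ℤ → ℤ} {p : ℕ} : a ∈ mrg w f p ↔ a = f ∨ (a ∈ w ∧ a ∉ ch f p) := by
  simp only [mrg, Finset.mem_insert, Finset.mem_sdiff]

theorem mrg_split (hS : PS S) {v : V} (hv : Frame S v) {f : ℤ → ℤ} (hf : f ∈ v) {p : ℕ}
    (hp : p ∈ S) : mrg (split v f p) f p = v := by
  ext a
  simp only [mem_mrg, mem_split]
  have h1 : a ∈ ch f p → a ∉ v := fun h h' =>
    Finset.disjoint_left.1 (disj_ch hS hv hf hp) h' h
  by_cases e : a = f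
  · subst e
    simp [hf]
  · tauto

theorem not_mem_of_ch (hS : PS S) {w : V} (hw : Frame S w) {f : ℤ → ℤ} (hf : PC S f) {p : ℕ}
    (hp : p ∈ S) (h : ch f p ⊆ w) : f ∉ w := by
  intro hf'
  have hd := disj_ch hS hw hf' hp
  have hm : f ∘ cn (p : ℤ) (0 : ℕ) ∈ ch f p := mem_ch.2 ⟨0, (hS.prime p hp).pos, rfl⟩
  exact Finset.disjoint_left.1 hd (h hm) hm

theorem frame_mrg (hS : PS S) {w : V} (hw : Frame S w) {f : ℤ → ℤ} (hf : PC S f) {p : ℕ}
    (hp : p ∈ S) (h : ch f p ⊆ w) : Frame S (mrg w f p) := by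
  have hp0 := (hS.prime p hp).pos
  have key : ∀ b ∈ w, b ∉ ch f p → ∀ y z, f y ≠ b z := by
    intro b hb hbn y z hyz
    obtain ⟨j, hj, x, hx⟩ := exists_child (f := f) hp0 y
    have hm : f ∘ cn (p : ℤ) j ∈ ch f p := mem_ch.2 ⟨j, hj, rfl⟩
    have := hw.dis _ (h hm) b hb x z (hx.symm.trans hyz)
    exact hbn (this ▸ hm)
  refine ⟨fun a ha => ?_, fun x => ?_, fun a ha b hb y z hyz => ?_⟩
  · rcases mem_mrg.1 ha with rfl | ⟨h', -⟩
    · exact hf
    · exact hw.pc a h'
  · obtain ⟨g, hg, y, rfl⟩ := hw.cov x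
    by_cases hgf : g ∈ ch f p
    · obtain ⟨x, hx⟩ := val_of_mem_ch hgf y
      exact ⟨f, mem_mrg.2 (Or.inl rfl), x, hx⟩
    · exact ⟨g, mem_mrg.2 (Or.inr ⟨hg, hgf⟩), y, rfl⟩
  · rcases mem_mrg.1 ha with rfl | ⟨ha1, ha2⟩ <;> rcases mem_mrg.1 hb with rfl | ⟨hb1, hb2⟩
    · rfl
    · exact absurd hyz (key b hb1 hb2 y z)
    · exact absurd hyz.symm (key a ha1 ha2 z y)
    · exact hw.dis a ha1 b hb1 y z hyz

theorem split_mrg (hS : PS S) {w : V} (hw : Frame S w) {f : ℤ → ℤ} (hf : PC S f) {p : ℕ}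
    (hp : p ∈ S) (h : ch f p ⊆ w) : split (mrg w f p) f p = w := by
  ext a
  simp only [mem_split, mem_mrg]
  have h1 : a = f → a ∉ w := fun e => e ▸ not_mem_of_ch hS hw hf hp h
  have h2 : a ∈ ch f p → a ∈ w := fun h' => h h'
  tauto

theorem card_mrg (hS : PS S) {w : V} (hw : Frame S w) {f : ℤ → ℤ} (hf : PC S f) {p : ℕ}
    (hp : p ∈ S) (h : ch f p ⊆ w) : (mrg w f p).card + p = w.card + 1 := by
  have h1 := card_split hS (frame_mrg hS hw hf hp h) (mem_mrg.2 (Or.inl rfl)) hp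
  rw [split_mrg hS hw hf hp h] at h1
  exact h1.symm

/-- the merge is determined by its bottom and its top -/
theorem mrg_unique (hS : PS S) {w : V} (hw : Frame S w) {f g : ℤ → ℤ} (hf : PC S f) (hg : PC S g)
    {p q : ℕ} (hp : p ∈ S) (hq : q ∈ S) (hfw : ch f p ⊆ w) (hgw : ch g q ⊆ w)
    (h : mrg w f p = mrg w g q) : f = g ∧ p = q := by
  have hm : f ∈ mrg w g q := h ▸ mem_mrg.2 (Or.inl rfl)
  refine ⟨?_, ?_⟩
  · rcases mem_mrg.1 hm with e | ⟨h1, -⟩
    · exact e
    · exact absurd h1 (not_mem_of_ch hS hw hf hp hfw)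
  · have h1 := card_mrg hS hw hf hp hfw
    have h2 := card_mrg hS hw hg hq hgw
    rw [h] at h1
    omega

theorem ch_sub_mrg {w : V} {f g : ℤ → ℤ} {p q : ℕ} (hgw : ch g q ⊆ w)
    (hd : Disjoint (ch f p) (ch g q)) : ch g q ⊆ mrg w f p := fun a ha =>
  mem_mrg.2 (Or.inr ⟨hgw ha, fun h => Finset.disjoint_left.1 hd h ha⟩)

theorem mrg_comm (hS : PS S) {w : V} (hw : Frame S w) {f g : ℤ → ℤ} (hf : PC S f) (hg : PC S g)
    {p q : ℕ} (hp : p ∈ S) (hq : q ∈ S) (hfw : ch f p ⊆ w) (hgw : ch g q ⊆ w)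
    (hd : Disjoint (ch f p) (ch g q)) : mrg (mrg w f p) g q = mrg (mrg w g q) f p := by
  ext a
  simp only [mem_mrg]
  have h1 : a = f → a ∉ ch g q := fun e h => not_mem_of_ch hS hw hf hp hfw (e ▸ hgw h)
  have h2 : a = g → a ∉ ch f p := fun e h => not_mem_of_ch hS hw hg hq hgw (e ▸ hfw h)
  tauto

/-- two different elements of a frame can be merged -/
theorem exists_merge (hS : PS S) {w : V} (hw : Frame S w) {a b : ℤ → ℤ} (ha : a ∈ w) (hb : b ∈ w)
    (hab : a ≠ b) : ∃ m : ℤ → ℤ, PC S m ∧ ch m 2 = {a, b} := by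
  obtain ⟨m, hm, h0, h1⟩ := exists_glue hS (hw.pc a ha) (hw.pc b hb)
    (fun x y e => hab (hw.dis a ha b hb x y e))
  refine ⟨m, hm, ?_⟩
  ext c
  rw [mem_ch, Finset.mem_insert, Finset.mem_singleton]
  constructor
  · rintro ⟨j, hj, rfl⟩
    have : j = 0 ∨ j = 1 := by omega
    rcases this with rfl | rfl
    · exact Or.inl h0
    · exact Or.inr h1
  · rintro (rfl | rfl)
    · exact ⟨0, by omega, h0⟩
    · exact ⟨1, by omega, h1⟩

/-! ### squares, seen from below -/

/-- the square over the bottom `v` -/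
theorem SqFlat.bot (hS : PS S) {H : Type} [Group H] {φ : V → V → H} {n : ℕ} (h : SqFlat S φ n)
    {v : V} (hv : Frame S v) {f g : ℤ → ℤ} (hf : f ∈ v) (hg : g ∈ v) (hfg : f ≠ g) {p q : ℕ}
    (hp : p ∈ S) (hq : q ∈ S) (hn : v.card + p + q ≤ n + 2) :
    φ v (split v f p) * φ (split v f p) (split (split v f p) g q) =
      φ v (split v g q) * φ (split v g q) (split (split v f p) g q) := by
  have hv1 := frame_split hS hv hf hp
  have hv2 := frame_split hS hv hg hq
  have hg1 : g ∈ split v f p := mem_split_of_ne hg (Ne.symm hfg)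
  have hf1 : f ∈ split v g q := mem_split_of_ne hf hfg
  have hw := frame_split hS hv1 hg1 hq
  have hc1 := card_split hS hv hf hp
  have hc2 := card_split hS hv1 hg1 hq
  have hcomm := split_comm hS hv hf hg hfg hp hq
  have e1 : mrg (split (split v f p) g q) g q = split v f p := mrg_split hS hv1 hg1 hq
  have e2 : mrg (split (split v f p) g q) f p = split v g q := by
    rw [hcomm]; exact mrg_split hS hv2 hf1 hp
  have e3 : mrg (split v g q) g q = v := mrg_split hS hv hg hq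
  have hfs : ch f p ⊆ split (split v f p) g q := by
    rw [hcomm]; exact ch_sub_split
  have key := h _ hw (by omega) f p g q (hv.pc f hf) hp hfs (hv.pc g hg) hq ch_sub_split
    (disj_ch_ch hv hf hg hfg p q)
  rw [e2, e3, e1] at key
  exact key.symm

/-! ### runs -/

theorem frame_runV (hS : PS S) {q : ℕ} (hq : q ∈ S) {l : List (ℤ → ℤ)} {v : V} (hv : Frame S v)
    (hl : l.Nodup) (hlv : ∀ a ∈ l, a ∈ v) : Frame S (runV q v l) := by
  induction l generalizing v with
  | nil => exact hv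
  | cons a l ih =>
    have ha := hlv a List.mem_cons_self
    rw [List.nodup_cons] at hl
    refine ih (frame_split hS hv ha hq) hl.2 fun b hb => ?_
    exact mem_split_of_ne (hlv b (List.mem_cons_of_mem _ hb)) (fun e => hl.1 (e ▸ hb))

theorem card_runV (hS : PS S) {q : ℕ} (hq : q ∈ S) {l : List (ℤ → ℤ)} {v : V} (hv : Frame S v)
    (hl : l.Nodup) (hlv : ∀ a ∈ l, a ∈ v) : (runV q v l).card + l.length = v.card + q * l.length := by
  induction l generalizing v with
  | nil => simp [runV]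
  | cons a l ih =>
    have ha := hlv a List.mem_cons_self
    rw [List.nodup_cons] at hl
    have h1 := ih (frame_split hS hv ha hq) hl.2 fun b hb =>
      mem_split_of_ne (hlv b (List.mem_cons_of_mem _ hb)) (fun e => hl.1 (e ▸ hb))
    have h2 := card_split hS hv ha hq
    simp only [runV, List.length_cons, mul_add, mul_one]
    omega

theorem prop_aux {A B C D E : Prop} (h : C → ¬D) :
    (((A ∧ ¬B) ∨ C) ∧ ¬D) ∨ E ↔ (A ∧ ¬(B ∨ D)) ∨ (C ∨ E) := by tauto

/-- the elements of a run -/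
theorem mem_runV (hS : PS S) {q : ℕ} (hq : q ∈ S) {l : List (ℤ → ℤ)} {v : V} (hv : Frame S v)
    (hl : l.Nodup) (hlv : ∀ a ∈ l, a ∈ v) {x : ℤ → ℤ} :
    x ∈ runV q v l ↔ (x ∈ v ∧ x ∉ l) ∨ ∃ a ∈ l, x ∈ ch a q := by
  induction l generalizing v with
  | nil => simp [runV]
  | cons a l ih =>
    have ha := hlv a List.mem_cons_self
    rw [List.nodup_cons] at hl
    have h1 := ih (frame_split hS hv ha hq) hl.2 fun b hb =>
      mem_split_of_ne (hlv b (List.mem_cons_of_mem _ hb)) (fun e => hl.1 (e ▸ hb))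
    have h2 : x ∈ ch a q → x ∉ l := fun h h' =>
      Finset.disjoint_left.1 (disj_ch hS hv ha hq) (hlv x (List.mem_cons_of_mem _ h')) h
    have h3 : (∃ b ∈ a :: l, x ∈ ch b q) ↔ x ∈ ch a q ∨ ∃ b ∈ l, x ∈ ch b q := by
      simp [List.mem_cons]
    simp only [runV]
    rw [h1, h3, mem_split, List.mem_cons]
    exact prop_aux h2

/-- the two ways around a diamond end at the same frame -/
theorem runV_diamond (hS : PS S) {v : V} (hv : Frame S v) {f : ℤ → ℤ} (hf : f ∈ v) {p q : ℕ}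
    (hp : p ∈ S) (hq : q ∈ S) :
    runV q (split v f p) (chl f p) = runV p (split v f q) (chl f q) := by
  have key : ∀ {p q : ℕ}, p ∈ S → q ∈ S → ∀ x, x ∈ runV q (split v f p) (chl f p) →
      x ∈ runV p (split v f q) (chl f q) := by
    intro p q hp hq x hx
    have hmem : ∀ {p : ℕ}, ∀ a ∈ chl f p, a ∈ split v f p := fun a ha =>
      ch_sub_split (mem_chl.1 ha)
    rw [mem_runV hS hq (frame_split hS hv hf hp) (nodup_chl (hv.pc f hf).inj p) hmem] at hx
    rw [mem_runV hS hp (frame_split hS hv hf hq) (nodup_chl (hv.pc f hf).inj q) hmem]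
    rcases hx with ⟨h1, h2⟩ | ⟨a, ha, hxa⟩
    · left
      rw [mem_chl] at h2
      rcases mem_split.1 h1 with h3 | h3
      · exact ⟨mem_split.2 (Or.inl h3), fun h4 =>
          Finset.disjoint_left.1 (disj_ch hS hv hf hq) h3.1 (mem_chl.1 h4)⟩
      · exact absurd h3 h2
    · right
      obtain ⟨i, hi, rfl⟩ := mem_ch.1 (mem_chl.1 ha)
      obtain ⟨j, hj, rfl⟩ := mem_ch.1 hxa
      obtain ⟨j', i', hj', hi', e⟩ := cn_swap (hS.prime q hq).pos hi hj
      refine ⟨f ∘ cn (q : ℤ) j', mem_chl.2 (mem_ch.2 ⟨j', hj', rfl⟩), mem_ch.2 ⟨i', hi', ?_⟩⟩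
      rw [Function.comp_assoc, Function.comp_assoc, e]
  ext x
  exact ⟨key hp hq x, key hq hp x⟩

end Pool.Agent.Run7.h341.CTF
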