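import Mathlib
import Pool.Agent.Helper111.CT

/-!
# `CT_P(ℤ)` is finitely presented (MP_02e21a_al, frozen statement S00591): definitions

`S` is a finite set of primes with `2 ∈ S`.  The group is `G S = CTg (Sm S)`, the group generated by
the class transpositions with `S`-smooth moduli; by the starting theorem `mem_CTg_iff` of
`Pool.Agent.Helper111.CT` it is the group of all piecewise canonical permutations of `ℤ`.

A *frame* is a finite set of piecewise canonical injections `ℤ → ℤ` whose images partition `ℤ`.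
Frames can be *split* (replace `f` by the `p` maps `f ∘ (r + p x)`) and *merged* (the inverse).
-/

set_option autoImplicit false

noncomputable section

open scoped Classical

namespace Pool.Agent.Run7.h341.CTF

open Equiv

/-- a finite set of primes containing `2` -/
structure PS (S : Finset ℕ) : Prop where
  prime : ∀ p ∈ S, p.Prime
  two : 2 ∈ S

/-- `S`-smooth positive integers -/
def Sm (S : Finset ℕ) (m : ℤ) : Prop := 0 < m ∧ ∀ p : ℕ, p.Prime → (p : ℤ) ∣ m → p ∈ S

/-- the canonical map onto the residue class `r (mod m)` -/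
def cn (m r : ℤ) : ℤ → ℤ := fun x => r + m * x

/-- `f` is the canonical map onto a residue class with `S`-smooth modulus -/
def IsCone (S : Finset ℕ) (f : ℤ → ℤ) : Prop := ∃ m r : ℤ, Sm S m ∧ 0 ≤ r ∧ r < m ∧ f = cn m r

/-- piecewise canonical injections -/
def PC (S : Finset ℕ) (f : ℤ → ℤ) : Prop :=
  Function.Injective f ∧ ∃ M : ℤ, Sm S M ∧ ∀ i : ℤ, 0 ≤ i → i < M → IsCone S (f ∘ cn M i)

/-- vertices of the complex: finite sets of functions -/
abbrev V := Finset (ℤ → ℤ)

/-- frames -/
structure Frame (S : Finset ℕ) (v : V) : Prop where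
  pc : ∀ f ∈ v, PC S f
  cov : ∀ x : ℤ, ∃ f ∈ v, ∃ y, f y = x
  dis : ∀ f ∈ v, ∀ g ∈ v, ∀ y z, f y = g z → f = g

/-- the `p` children of `f` -/
def ch (f : ℤ → ℤ) (p : ℕ) : V := (Finset.range p).image (fun j : ℕ => f ∘ cn (p : ℤ) (j : ℤ))

/-- the list of the `p` children of `f` -/
def chl (f : ℤ → ℤ) (p : ℕ) : List (ℤ → ℤ) := (List.range p).map (fun j : ℕ => f ∘ cn (p : ℤ) (j : ℤ))

/-- replace `f` by its children -/
def split (v : V) (f : ℤ → ℤ) (p : ℕ) : V := v.erase f ∪ ch f p

/-- replace the children of `f` by `f` -/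
def mrg (w : V) (f : ℤ → ℤ) (p : ℕ) : V := insert f (w \ ch f p)

section flat

variable {H : Type} [Group H]

/-- the square with top `w` given by two merges of disjoint sets commutes -/
def SqT (S : Finset ℕ) (φ : V → V → H) (w : V) : Prop :=
  ∀ (f : ℤ → ℤ) (p : ℕ) (g : ℤ → ℤ) (q : ℕ), PC S f → p ∈ S → ch f p ⊆ w → PC S g → q ∈ S →
    ch g q ⊆ w → Disjoint (ch f p) (ch g q) →
    φ (mrg (mrg w f p) g q) (mrg w f p) * φ (mrg w f p) w =
      φ (mrg (mrg w f p) g q) (mrg w g q) * φ (mrg w g q) w

/-- all squares with top of rank at most `n` commute -/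
def SqFlat (S : Finset ℕ) (φ : V → V → H) (n : ℕ) : Prop :=
  ∀ w, Frame S w → w.card ≤ n → SqT S φ w

/-- the product of `φ` along the path which splits the elements of the list one after the other -/
def runH (φ : V → V → H) (q : ℕ) : V → List (ℤ → ℤ) → H
  | _, [] => 1
  | v, a :: l => φ v (split v a q) * runH φ q (split v a q) l

/-- the end of this path -/
def runV (q : ℕ) : V → List (ℤ → ℤ) → V
  | v, [] => v
  | v, a :: l => runV q (split v a q) l

/-- all diamonds (split `f` by `p`, then the children by `q`; and the same with `p`, `q` exchanged)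
with top of rank at most `n` commute -/
def DiFlat (S : Finset ℕ) (φ : V → V → H) (n : ℕ) : Prop :=
  ∀ (v : V) (f : ℤ → ℤ) (p q : ℕ), Frame S v → f ∈ v → p ∈ S → q ∈ S → p ≠ q →
    v.card + p * q ≤ n + 1 →
    φ v (split v f p) * runH φ q (split v f p) (chl f p) =
      φ v (split v f q) * runH φ p (split v f q) (chl f q)

end flat

/-- **extension**: a connection which is flat up to rank `N` extends to a flat connection -/
def StatExt (S : Finset ℕ) : Prop :=
  ∃ N₀ : ℕ, ∀ N : ℕ, N₀ ≤ N → ∀ (H : Type) [Group H] (φ : V → V → H), SqFlat S φ N → DiFlat S φ N →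
    ∃ φ' : V → V → H, (∀ v w : V, w.card ≤ N → φ' v w = φ v w) ∧
      (∀ n, SqFlat S φ' n) ∧ ∀ n, DiFlat S φ' n

/-- **potential**: a flat connection is a coboundary -/
def StatPot (S : Finset ℕ) : Prop :=
  ∀ (H : Type) [Group H] (φ : V → V → H), (∀ n, SqFlat S φ n) → (∀ n, DiFlat S φ n) →
    ∃ F : V → H, ∀ (v : V) (f : ℤ → ℤ) (p : ℕ), Frame S v → f ∈ v → p ∈ S →
      φ v (split v f p) = (F v)⁻¹ * F (split v f p)

/-- **connectedness** of the part of rank at most `N` -/
def StatConn (S : Finset ℕ) : Prop :=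
  ∃ N₀ : ℕ, ∀ N : ℕ, N₀ ≤ N → ∀ C : V → Prop,
    (∀ (v : V) (f : ℤ → ℤ) (p : ℕ), Frame S v → f ∈ v → p ∈ S → (split v f p).card ≤ N →
      (C v ↔ C (split v f p))) →
    ∀ v w : V, Frame S v → Frame S w → v.card ≤ N → w.card ≤ N → (C v ↔ C w)

/-- finitely presented, in the form of the frozen statement -/
def FP (G : Type) [Group G] : Prop :=
  ∃ (n : ℕ) (φ : FreeGroup (Fin n) →* G), Function.Surjective φ ∧
    ∃ R : Finset (FreeGroup (Fin n)),
      φ.ker = Subgroup.normalClosure (R : Set (FreeGroup (Fin n)))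

/-- the group -/
def G (S : Finset ℕ) : Subgroup (Perm ℤ) := Pool.Agent.Helper111.CT.CTg (Sm S)

/-- **the Rips type argument** -/
def StatRips (S : Finset ℕ) : Prop := StatExt S → StatPot S → StatConn S → FP (G S)

end Pool.Agent.Run7.h341.CTF
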