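import Pool.Agent.Run7.h341.CTF.Base

/-!
# `CT_P(ℤ)` is finitely presented: the group

* `mem_G_iff`: the elements of `G S` are the piecewise canonical permutations;
* `gen_eq`: the generators of the frozen statement S00591 are those of `G (insert 2 P)`.
-/

set_option autoImplicit false

noncomputable section

open scoped Classical

namespace Pool.Agent.Run7.h341.CTF

open Equiv Pool.Agent.Helper111.CT

variable {S : Finset ℕ}

theorem adm (hS : PS S) : Adm (Sm S) where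
  one := Sm.one
  two := by exact_mod_cast Sm.prime hS hS.two
  mul := fun _ _ => Sm.mul

/-- the elements of the group are the piecewise canonical permutations -/
theorem mem_G_iff (hS : PS S) (g : Perm ℤ) : g ∈ G S ↔ PC S g := by
  rw [G, mem_CTg_iff (adm hS)]
  constructor
  · rintro ⟨M, -, hM, h⟩
    refine ⟨g.injective, M, hM, fun i h0 h1 => ?_⟩
    obtain ⟨c, m, hc, hcm, hm, e⟩ := h i h0 h1
    exact ⟨m, c, hm, hc, hcm, funext e⟩
  · rintro ⟨-, M, hM, h⟩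
    refine ⟨M, hM.pos, hM, fun i h0 h1 => ?_⟩
    obtain ⟨m, c, hm, hc, hcm, e⟩ := h i h0 h1
    exact ⟨c, m, hc, hcm, hm, congrFun e⟩

theorem emod_iff {m r k : ℤ} (h0 : 0 ≤ r) (h1 : r < m) : k % m = r ↔ m ∣ k - r := by
  constructor
  · intro h
    exact ⟨k / m, by have := Int.emod_add_mul_ediv k m; rw [h] at this; linarith⟩
  · rintro ⟨t, ht⟩
    rw [show k = r + m * t by linarith, Int.add_mul_emod_self_left, Int.emod_eq_of_lt h0 h1]

theorem sm_iff {P : Finset ℕ} {m : ℤ} (hm : 0 < m) :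
    (∀ p ∈ Nat.primeFactors m.natAbs, p = 2 ∨ p ∈ P) ↔ Sm (insert 2 P) m := by
  constructor
  · intro h
    refine ⟨hm, fun p hp hd => Finset.mem_insert.2 (h p ?_)⟩
    exact Nat.mem_primeFactors.2 ⟨hp, Int.natCast_dvd.1 hd, by omega⟩
  · rintro ⟨-, h⟩ p hp
    obtain ⟨h1, h2, -⟩ := Nat.mem_primeFactors.1 hp
    exact Finset.mem_insert.1 (h p h1 (Int.natCast_dvd.2 h2))

theorem gen_eq (P : Finset ℕ) :
    {σ : Equiv.Perm ℤ | ∃ r₁ m₁ r₂ m₂ : ℤ,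
          0 < m₁ ∧ 0 < m₂ ∧ 0 ≤ r₁ ∧ r₁ < m₁ ∧ 0 ≤ r₂ ∧ r₂ < m₂ ∧
          (∀ k : ℤ, ¬ (k % m₁ = r₁ ∧ k % m₂ = r₂)) ∧
          (∀ p ∈ Nat.primeFactors m₁.natAbs, p = 2 ∨ p ∈ P) ∧
          (∀ p ∈ Nat.primeFactors m₂.natAbs, p = 2 ∨ p ∈ P) ∧
          ∀ k : ℤ, σ k =
            if k % m₁ = r₁ then (m₂ * k + m₁ * r₂ - m₂ * r₁) / m₁
            else if k % m₂ = r₂ then (m₁ * k + m₂ * r₁ - m₁ * r₂) / m₂
            else k} = {σ : Perm ℤ | IsCT (Sm (insert 2 P)) σ} := by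
  ext σ
  simp only [Set.mem_ofPred_eq]
  constructor
  · rintro ⟨r₁, m₁, r₂, m₂, h1, h2, h3, h4, h5, h6, h7, h8, h9, h10⟩
    have hd : ∀ n : ℤ, ¬ (m₁ ∣ n - r₁ ∧ m₂ ∣ n - r₂) := fun n h =>
      h7 n ⟨(emod_iff h3 h4).2 h.1, (emod_iff h5 h6).2 h.2⟩
    refine ⟨r₁, m₁, r₂, m₂, h3, h4, h5, h6, (sm_iff h1).1 h8, (sm_iff h2).1 h9, hd, ?_, ?_⟩
    · intro k
      have a1 : (r₁ + m₁ * k) % m₁ = r₁ := (emod_iff h3 h4).2 ⟨k, by ring⟩
      have a2 : (r₂ + m₂ * k) % m₂ = r₂ := (emod_iff h5 h6).2 ⟨k, by ring⟩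
      have a3 : ¬ (r₂ + m₂ * k) % m₁ = r₁ := fun h => h7 _ ⟨h, a2⟩
      constructor
      · rw [h10, if_pos a1, show m₂ * (r₁ + m₁ * k) + m₁ * r₂ - m₂ * r₁ = m₁ * (r₂ + m₂ * k) by ring,
          Int.mul_ediv_cancel_left _ h1.ne']
      · rw [h10, if_neg a3, if_pos a2,
          show m₁ * (r₂ + m₂ * k) + m₂ * r₁ - m₁ * r₂ = m₂ * (r₁ + m₁ * k) by ring,
          Int.mul_ediv_cancel_left _ h2.ne']
    · intro n ha hb
      rw [h10, if_neg (fun h => ha ((emod_iff h3 h4).1 h)), if_neg (fun h => hb ((emod_iff h5 h6).1 h))]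
  · rintro ⟨r₁, m₁, r₂, m₂, h3, h4, h5, h6, hm1, hm2, hd, hs, hf⟩
    refine ⟨r₁, m₁, r₂, m₂, hm1.1, hm2.1, h3, h4, h5, h6, ?_, (sm_iff hm1.1).2 hm1,
      (sm_iff hm2.1).2 hm2, ?_⟩
    · intro k h
      exact hd k ⟨(emod_iff h3 h4).1 h.1, (emod_iff h5 h6).1 h.2⟩
    · intro k
      by_cases ha : k % m₁ = r₁
      · rw [if_pos ha]
        obtain ⟨t, ht⟩ := (emod_iff h3 h4).1 ha
        rw [show k = r₁ + m₁ * t by linarith, (hs t).1,
          show m₂ * (r₁ + m₁ * t) + m₁ * r₂ - m₂ * r₁ = m₁ * (r₂ + m₂ * t) by ring,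
          Int.mul_ediv_cancel_left _ hm1.1.ne']
      · rw [if_neg ha]
        by_cases hb : k % m₂ = r₂
        · rw [if_pos hb]
          obtain ⟨t, ht⟩ := (emod_iff h5 h6).1 hb
          rw [show k = r₂ + m₂ * t by linarith, (hs t).2,
            show m₁ * (r₂ + m₂ * t) + m₂ * r₁ - m₁ * r₂ = m₂ * (r₁ + m₁ * t) by ring,
            Int.mul_ediv_cancel_left _ hm2.1.ne']
        · rw [if_neg hb]
          exact hf k (fun h => ha ((emod_iff h3 h4).2 h)) (fun h => hb ((emod_iff h5 h6).2 h))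

/-- the set of primes of the group -/
theorem ps_insert {P : Finset ℕ} (hP : ∀ p ∈ P, Nat.Prime p ∧ p ≠ 2) : PS (insert 2 P) :=
  ⟨fun p hp => by
    rcases Finset.mem_insert.1 hp with rfl | h
    · exact Nat.prime_two
    · exact (hP p h).1, Finset.mem_insert_self _ _⟩

end Pool.Agent.Run7.h341.CTF
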